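import Pool.Agent.VTP.StmtsG

/-!
# Squad VTP, row HS1: the decomposition given by one derivation
-/

set_option autoImplicit false

namespace Pool.Agent.VTP.H34

open Finset Pool.Agent.ZOL Pool.Agent.VTP

section

variable {Z : Type} [AddCommGroup Z] {A : ℕ → AddSubgroup Z} {I : Z →+ Z} {θ : ℕ → Z →+ Z}
  {m : ℕ}

theorem hs1_memI (hI : ∀ k, ∀ x ∈ A k, I x ∈ A (k + m)) (k : ℕ) (x : Z) (hx : x ∈ A k) (N : ℕ) :
    (I^[N]) x ∈ A (k + m * N) := by
  induction N with
  | zero => simpa using hx
  | succ N ih =>
    rw [Function.iterate_succ_apply']
    have h := hI _ _ ih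
    rwa [add_assoc, ← Nat.mul_succ] at h

theorem hs1_key (hI : ∀ k, ∀ x ∈ A k, I x ∈ A (k + m))
    (h0 : ∀ k, ∀ x ∈ A k, θ 0 x = x)
    (hr : ∀ n k, ∀ x ∈ A k, θ (n + 1) (I x) = I (θ (n + 1) x) + θ n x)
    (k : ℕ) (z : Z) (hz : z ∈ A k) (hB : ∀ n, 1 ≤ n → θ n z = 0) :
    ∀ N n, θ n ((I^[N]) z) = ((N.choose n : ℕ) : ℤ) • (I^[N - n]) z := by
  intro N
  induction N with
  | zero =>
    intro n
    rcases n with _ | n
    · simpa using h0 k z hz
    · simpa using hB (n + 1) (by omega)
  | succ N ih =>
    intro n
    rcases n with _ | n
    · simpa using h0 _ _ (hs1_memI hI k z hz (N + 1))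
    · rw [Function.iterate_succ_apply', hr n _ _ (hs1_memI hI k z hz N), ih (n + 1), ih n,
        Nat.add_sub_add_right, Nat.choose_succ_succ, map_zsmul,
        ← Function.iterate_succ_apply' I (N - (n + 1)) z]
      rcases Nat.lt_or_ge N (n + 1) with h | h
      · rw [Nat.choose_eq_zero_of_lt h]
        simp
      · have e : (N - (n + 1)).succ = N - n := by omega
        rw [e]
        push_cast
        rw [add_zsmul, add_comm]

end

theorem hs1 : Hs1Stmt := by
  intro Z _ A I θ m hm hI hθ hθ0 h0 hit hr k
  have key := fun (k : ℕ) (z : Z) (hz : z ∈ A k) (hB : ∀ n, 1 ≤ n → θ n z = 0) =>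
    hs1_key hI h0 hr k z hz hB
  constructor
  · -- existence
    have main : ∀ N, N ≤ k / m → ∀ x ∈ A k, (∀ n, N < n → θ n x = 0) →
        ∃ y : ℕ → Z, (∀ i, m * i ≤ k → y i ∈ A (k - m * i) ∧
          ∀ n, 1 ≤ n → θ n (y i) = 0) ∧ x = ∑ i ∈ range (k / m + 1), (I^[i]) (y i) := by
      intro N
      induction N with
      | zero =>
        intro _ x hx hv
        refine ⟨fun i => if i = 0 then x else 0, ?_, ?_⟩
        · intro i hi
          by_cases h : i = 0
          · subst h
            simp only [if_true, mul_zero, Nat.sub_zero]
            exact ⟨hx, fun n hn => hv n (by omega)⟩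
          · simp only [h, if_false, map_zero, implies_true, and_true]
            exact (A _).zero_mem
        · rw [Finset.sum_eq_single 0]
          · simp
          · intro i _ hi
            simp only [hi, if_false]
            exact iterate_map_zero I i
          · intro h
            exact absurd (Finset.mem_range.2 (Nat.succ_pos _)) h
      | succ N ih =>
        intro hN x hx hv
        have hmN : m * (N + 1) ≤ k := by
          calc m * (N + 1) ≤ m * (k / m) := Nat.mul_le_mul_left m hN
            _ ≤ k := Nat.mul_div_le k m
        have hz : θ (N + 1) x ∈ A (k - m * (N + 1)) := hθ (N + 1) k hmN x hx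
        have hzB : ∀ n, 1 ≤ n → θ n (θ (N + 1) x) = 0 := by
          intro n hn
          rw [hit n (N + 1) k x hx, hv (n + (N + 1)) (by omega), smul_zero]
        have hk := key _ _ hz hzB (N + 1)
        have hmem : (I^[N + 1]) (θ (N + 1) x) ∈ A k := by
          have h := hs1_memI hI _ _ hz (N + 1)
          rwa [Nat.sub_add_cancel hmN] at h
        obtain ⟨y, hy, hs⟩ := ih (by omega) (x - (I^[N + 1]) (θ (N + 1) x))
          ((A k).sub_mem hx hmem) (by
            intro n hn
            rw [map_sub, hk n]
            rcases Nat.lt_or_ge (N + 1) n with h | h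
            · rw [hv n h, Nat.choose_eq_zero_of_lt h]
              simp
            · have : n = N + 1 := by omega
              subst this
              simp)
        refine ⟨fun i => if i = N + 1 then y i + θ (N + 1) x else y i, ?_, ?_⟩
        · intro i hi
          by_cases h : i = N + 1
          · subst h
            simp only [if_true]
            refine ⟨(A _).add_mem (hy _ hi).1 hz, fun n hn => ?_⟩
            rw [map_add, (hy _ hi).2 n hn, hzB n hn, add_zero]
          · simp only [h, if_false]
            exact hy i hi
        · have e : ∑ i ∈ range (k / m + 1), (I^[i]) (if i = N + 1 then y i + θ (N + 1) x else y i)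
              = ∑ i ∈ range (k / m + 1), ((I^[i]) (y i) +
                if i = N + 1 then (I^[N + 1]) (θ (N + 1) x) else 0) := by
            refine Finset.sum_congr rfl fun i _ => ?_
            by_cases h : i = N + 1
            · subst h
              simp only [if_true]
              exact iterate_map_add I _ _ _
            · simp only [h, if_false, add_zero]
          rw [e, Finset.sum_add_distrib, ← hs, Finset.sum_ite_eq', if_pos (by
            rw [Finset.mem_range]; omega)]
          abel
    intro x hx
    refine main (k / m) le_rfl x hx fun n hn => hθ0 n k ?_ x hx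
    have := (Nat.div_lt_iff_lt_mul (by omega : 0 < m)).1 hn
    rwa [mul_comm] at this
  · -- uniqueness
    intro y hy hs
    have main : ∀ t i, i + t = k / m → y i = 0 := by
      intro t
      induction t using Nat.strong_induction_on with
      | _ t ih =>
        intro i hi
        have hmi : ∀ j, j ≤ k / m → m * j ≤ k := fun j hj =>
          (Nat.mul_le_mul_left m hj).trans (Nat.mul_div_le k m)
        have h : θ i (∑ j ∈ range (k / m + 1), (I^[j]) (y j)) = y i := by
          rw [map_sum, Finset.sum_eq_single i]
          · have hi' := hy i (hmi i (by omega))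
            rw [key _ _ hi'.1 hi'.2 i i]
            simp
          · intro j hj hji
            rw [Finset.mem_range] at hj
            rcases Nat.lt_or_ge j i with hlt | hge
            · have hj' := hy j (hmi j (by omega))
              rw [key _ _ hj'.1 hj'.2 j i, Nat.choose_eq_zero_of_lt hlt]
              simp
            · rw [ih (k / m - j) (by omega) j (by omega), iterate_map_zero, map_zero]
          · intro h
            exact absurd (Finset.mem_range.2 (by omega)) h
        rw [← h, hs, map_zero]
    intro i hi
    have : i ≤ k / m := (Nat.le_div_iff_mul_le (by omega : 0 < m)).2 (by rwa [mul_comm] at hi)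
    exact main (k / m - i) i (by omega)

end Pool.Agent.VTP.H34
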