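import Pool.Agent.VTP.StmtsG
import Pool.Agent.Helper34_ZOL.ALG

/-!
# Squad VTP, row ITR: the divided powers of a derivation commute and are iterative
-/

set_option autoImplicit false

namespace Pool.Agent.VTP.H34

open Finset Pool.Agent.ZOL Pool.Agent.VTP

theorem itr_num (r : ℤ) (a b : ℕ) : Ring.choose r a * Ring.choose r b =
    ∑ i ∈ range (b + 1), (Ring.choose (a : ℤ) (b - i) * ((a + i).choose a : ℤ)) *
      Ring.choose r (a + i) := by
  have h1 : Ring.choose r b =
      ∑ ij ∈ antidiagonal b, Ring.choose (r - a) ij.1 * Ring.choose (a : ℤ) ij.2 := by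
    have h := Ring.add_choose_eq (R := ℤ) (r := r - a) (s := (a : ℤ)) b (Commute.all _ _)
    rwa [sub_add_cancel] at h
  rw [h1, Finset.Nat.sum_antidiagonal_eq_sum_range_succ_mk, Finset.mul_sum]
  refine Finset.sum_congr rfl fun i _ => ?_
  have h2 := Ring.choose_smul_choose r (n := a + i) (k := a) (Nat.le_add_right a i)
  rw [Nat.add_sub_cancel_left, nsmul_eq_mul] at h2
  change Ring.choose r a * (Ring.choose (r - a) i * Ring.choose (a : ℤ) (b - i)) = _
  rw [mul_assoc (Ring.choose (a : ℤ) (b - i)), h2]
  ring

theorem theta_theta {K : Type} (v : K → ℤ) (a b : ℕ) (x : K →₀ ℤ) :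
    theta v a (theta v b x) =
      ∑ i ∈ range (b + 1), (Ring.choose (a : ℤ) (b - i) * ((a + i).choose a : ℤ)) •
        theta v (a + i) x := by
  induction x using Finsupp.induction_linear with
  | zero => simp
  | add x y hx hy =>
    rw [map_add, map_add, hx, hy, ← Finset.sum_add_distrib]
    refine Finset.sum_congr rfl fun i _ => ?_
    rw [map_add, smul_add]
  | single k c =>
    rw [ZOL.H34.theta_single]
    change theta v a (Finsupp.single k (Ring.choose (v k) b * c)) = _
    rw [ZOL.H34.theta_single, ← mul_assoc, itr_num, Finset.sum_mul, map_sum]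
    refine Finset.sum_congr rfl fun i _ => ?_
    rw [ZOL.H34.theta_single, ← map_zsmul, smul_eq_mul, mul_assoc]

theorem theta_comm {K : Type} (u v : K → ℤ) (a b : ℕ) (x : K →₀ ℤ) :
    theta u a (theta v b x) = theta v b (theta u a x) := by
  induction x using Finsupp.induction_linear with
  | zero => simp
  | add x y hx hy => simp only [map_add, hx, hy]
  | single k c =>
    rw [ZOL.H34.theta_single, ZOL.H34.theta_single]
    change theta u a (Finsupp.single k (Ring.choose (v k) b * c)) =
      theta v b (Finsupp.single k (Ring.choose (u k) a * c))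
    rw [ZOL.H34.theta_single, ZOL.H34.theta_single, mul_left_comm]

theorem itr : ItrStmt := by
  refine ⟨fun K u v a b x => theta_comm u v a b x, ?_⟩
  intro K G v m hm hG hth a b d hd x hx
  rw [theta_theta, Finset.sum_range_succ, Nat.sub_self, Ring.choose_zero_right, one_mul,
    add_sub_cancel_right]
  refine (G _).sum_mem fun i hi => ?_
  rw [Finset.mem_range] at hi
  refine (G _).zsmul_mem (hG ?_ (hth (a + i) d x hx)) _
  have h1 : m * (a + i) + m ≤ m * (a + b) := by
    rw [← Nat.mul_succ]
    exact Nat.mul_le_mul_left m (by omega)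
  omega

end Pool.Agent.VTP.H34
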